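import Mathlib

/-!
# MP_e517fb_co: distance cospectral graphs, one transmission-regular and one not

Two explicit connected graphs on 20 vertices.  `Γ` is 10-regular of diameter 2 (two copies of
`K_{3,3,3,1}` with corresponding classes completely joined), `Ω` has diameter 4.
The two distance matrices are similar over `ℚ` by an explicit integer matrix.
-/

namespace Pool.Agent.Results.MP_e517fb_co.CospectralPair

open Matrix

/-- The distance matrix of a graph, as a real matrix. -/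
noncomputable def distMatrix {V : Type*} (G : SimpleGraph V) : Matrix V V ℝ :=
  Matrix.of fun u v => (G.dist u v : ℝ)

/-- Table lookup. -/
def lk {α : Type} [Inhabited α] (t : List (List α)) (i j : Fin 20) : α :=
  ((t.getD i.val []).getD j.val default)

def tG : List (List ℕ) :=
  [[0, 2, 2, 1, 1, 1, 1, 1, 1, 1, 1, 1, 1, 2, 2, 2, 2, 2, 2, 2],
   [2, 0, 2, 1, 1, 1, 1, 1, 1, 1, 1, 1, 1, 2, 2, 2, 2, 2, 2, 2],
   [2, 2, 0, 1, 1, 1, 1, 1, 1, 1, 1, 1, 1, 2, 2, 2, 2, 2, 2, 2],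
   [1, 1, 1, 0, 2, 2, 1, 1, 1, 1, 2, 2, 2, 1, 1, 1, 2, 2, 2, 2],
   [1, 1, 1, 2, 0, 2, 1, 1, 1, 1, 2, 2, 2, 1, 1, 1, 2, 2, 2, 2],
   [1, 1, 1, 2, 2, 0, 1, 1, 1, 1, 2, 2, 2, 1, 1, 1, 2, 2, 2, 2],
   [1, 1, 1, 1, 1, 1, 0, 2, 2, 1, 2, 2, 2, 2, 2, 2, 1, 1, 1, 2],
   [1, 1, 1, 1, 1, 1, 2, 0, 2, 1, 2, 2, 2, 2, 2, 2, 1, 1, 1, 2],
   [1, 1, 1, 1, 1, 1, 2, 2, 0, 1, 2, 2, 2, 2, 2, 2, 1, 1, 1, 2],
   [1, 1, 1, 1, 1, 1, 1, 1, 1, 0, 2, 2, 2, 2, 2, 2, 2, 2, 2, 1],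
   [1, 1, 1, 2, 2, 2, 2, 2, 2, 2, 0, 2, 2, 1, 1, 1, 1, 1, 1, 1],
   [1, 1, 1, 2, 2, 2, 2, 2, 2, 2, 2, 0, 2, 1, 1, 1, 1, 1, 1, 1],
   [1, 1, 1, 2, 2, 2, 2, 2, 2, 2, 2, 2, 0, 1, 1, 1, 1, 1, 1, 1],
   [2, 2, 2, 1, 1, 1, 2, 2, 2, 2, 1, 1, 1, 0, 2, 2, 1, 1, 1, 1],
   [2, 2, 2, 1, 1, 1, 2, 2, 2, 2, 1, 1, 1, 2, 0, 2, 1, 1, 1, 1],
   [2, 2, 2, 1, 1, 1, 2, 2, 2, 2, 1, 1, 1, 2, 2, 0, 1, 1, 1, 1],
   [2, 2, 2, 2, 2, 2, 1, 1, 1, 2, 1, 1, 1, 1, 1, 1, 0, 2, 2, 1],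
   [2, 2, 2, 2, 2, 2, 1, 1, 1, 2, 1, 1, 1, 1, 1, 1, 2, 0, 2, 1],
   [2, 2, 2, 2, 2, 2, 1, 1, 1, 2, 1, 1, 1, 1, 1, 1, 2, 2, 0, 1],
   [2, 2, 2, 2, 2, 2, 2, 2, 2, 1, 1, 1, 1, 1, 1, 1, 1, 1, 1, 0]]

def tO : List (List ℕ) :=
  [[0, 2, 2, 2, 2, 2, 1, 1, 1, 1, 1, 1, 1, 1, 1, 1, 1, 1, 3, 1],
   [2, 0, 2, 2, 2, 2, 1, 1, 1, 1, 1, 1, 1, 1, 1, 1, 1, 1, 3, 1],
   [2, 2, 0, 2, 2, 2, 1, 1, 1, 1, 1, 1, 1, 1, 1, 1, 1, 1, 3, 1],
   [2, 2, 2, 0, 2, 2, 1, 1, 1, 1, 1, 1, 1, 1, 1, 1, 1, 1, 1, 3],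
   [2, 2, 2, 2, 0, 2, 1, 1, 1, 1, 1, 1, 1, 1, 1, 1, 1, 1, 1, 3],
   [2, 2, 2, 2, 2, 0, 1, 1, 1, 1, 1, 1, 1, 1, 1, 1, 1, 1, 1, 3],
   [1, 1, 1, 1, 1, 1, 0, 2, 2, 2, 2, 2, 1, 1, 1, 1, 1, 1, 2, 2],
   [1, 1, 1, 1, 1, 1, 2, 0, 2, 2, 2, 2, 1, 1, 1, 1, 1, 1, 2, 2],
   [1, 1, 1, 1, 1, 1, 2, 2, 0, 2, 2, 2, 1, 1, 1, 1, 1, 1, 2, 2],
   [1, 1, 1, 1, 1, 1, 2, 2, 2, 0, 2, 2, 1, 1, 1, 1, 1, 1, 2, 2],
   [1, 1, 1, 1, 1, 1, 2, 2, 2, 2, 0, 2, 1, 1, 1, 1, 1, 1, 2, 2],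
   [1, 1, 1, 1, 1, 1, 2, 2, 2, 2, 2, 0, 1, 1, 1, 1, 1, 1, 2, 2],
   [1, 1, 1, 1, 1, 1, 1, 1, 1, 1, 1, 1, 0, 2, 2, 2, 2, 2, 2, 2],
   [1, 1, 1, 1, 1, 1, 1, 1, 1, 1, 1, 1, 2, 0, 2, 2, 2, 2, 2, 2],
   [1, 1, 1, 1, 1, 1, 1, 1, 1, 1, 1, 1, 2, 2, 0, 2, 2, 2, 2, 2],
   [1, 1, 1, 1, 1, 1, 1, 1, 1, 1, 1, 1, 2, 2, 2, 0, 2, 2, 2, 2],
   [1, 1, 1, 1, 1, 1, 1, 1, 1, 1, 1, 1, 2, 2, 2, 2, 0, 2, 2, 2],
   [1, 1, 1, 1, 1, 1, 1, 1, 1, 1, 1, 1, 2, 2, 2, 2, 2, 0, 2, 2],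
   [3, 3, 3, 1, 1, 1, 2, 2, 2, 2, 2, 2, 2, 2, 2, 2, 2, 2, 0, 4],
   [1, 1, 1, 3, 3, 3, 2, 2, 2, 2, 2, 2, 2, 2, 2, 2, 2, 2, 4, 0]]

def tP : List (List ℤ) :=
  [[124, -56, -56, -56, -56, -56, 34, 34, 34, 34, 34, -146, 154, -26, -26, -26, -26, -26, 21, 111],
   [-44, 136, -44, -44, -44, -44, 16, 16, 16, 16, 16, 16, 16, 16, 16, 16, 16, 16, -51, 39],
   [-44, -44, 136, -44, -44, -44, 16, 16, 16, 16, 16, 16, 16, 16, 16, 16, 16, 16, -51, 39],
   [46, 46, 46, 106, -74, -74, -44, -44, -44, -44, -44, 136, -44, 136, 136, -44, -44, -44, -51, 39],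
   [46, 46, 46, -74, 106, -74, -14, -14, -14, -14, -14, -14, 16, 16, 16, 16, 16, 16, -51, 39],
   [46, 46, 46, -74, -74, 106, -14, -14, -14, -14, -14, -14, 16, 16, 16, 16, 16, 16, -51, 39],
   [46, 46, 46, -14, -14, -14, 76, -104, -104, 76, 76, 76, -104, -104, -104, 76, 76, 76, -51, 39],
   [46, 46, 46, -14, -14, -14, -14, 166, -14, -14, -14, -14, -14, -14, -14, -14, -14, -14, -51, 39],
   [46, 46, 46, -14, -14, -14, -14, -14, 166, -14, -14, -14, -14, -14, -14, -14, -14, -14, -51, 39],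
   [-2, -2, -2, -2, -2, -2, -2, -2, -2, -2, -2, -2, -2, -2, -2, -2, -2, -2, -93, 177],
   [-16, -16, -16, 44, 44, 44, 74, 74, 74, -106, -106, -106, 134, -46, -46, -46, -46, -46, 111, 21],
   [-4, -4, -4, 56, 56, 56, -34, -34, -34, 146, -34, -34, -4, -4, -4, -4, -4, -4, 39, -51],
   [-4, -4, -4, 56, 56, 56, -34, -34, -34, -34, 146, -34, -4, -4, -4, -4, -4, -4, 39, -51],
   [-34, -34, -34, 26, 26, 26, -4, -4, -4, -4, -4, 176, -4, -4, -4, -4, -4, -4, 39, -51],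
   [-34, -34, -34, 26, 26, 26, 26, 26, 26, 26, 26, 26, -34, 146, -34, -34, -34, -34, 39, -51],
   [-34, -34, -34, 26, 26, 26, 26, 26, 26, 26, 26, 26, -34, -34, 146, -34, -34, -34, 39, -51],
   [-34, -34, -34, 26, 26, 26, -4, -4, -4, -4, -4, -4, -4, -4, -4, 176, -4, -4, 39, -51],
   [-34, -34, -34, 26, 26, 26, -4, -4, -4, -4, -4, -4, -4, -4, -4, -4, 176, -4, 39, -51],
   [-34, -34, -34, 26, 26, 26, -4, -4, -4, -4, -4, -4, -4, -4, -4, -4, -4, 176, 39, -51],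
   [-2, -2, -2, -2, -2, -2, -2, -2, -2, -2, -2, -2, -2, -2, -2, -2, -2, -2, 177, -93]]

def tQ : List (List ℤ) :=
  [[95, -85, -85, 65, 65, 65, 65, 65, 65, -75, -5, -5, -5, 25, 25, 25, 25, 25, 25, -15],
   [-31, 149, -31, 29, 29, 29, 29, 29, 29, -21, 49, 49, 49, -11, -11, -11, -11, -11, -11, 39],
   [-31, -31, 149, 29, 29, 29, 29, 29, 29, -21, 49, 49, 49, -11, -11, -11, -11, -11, -11, 39],
   [15, 15, 15, 105, -75, -75, 45, 45, 45, -15, 75, 75, 75, -15, -15, -15, 45, 45, 45, -75],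
   [-21, -21, -21, -21, 159, -21, 9, 9, 9, 39, 39, 39, 39, 39, 39, 39, 9, 9, 9, -21],
   [-21, -21, -21, -21, -21, 159, 9, 9, 9, 39, 39, 39, 39, 39, 39, 39, 9, 9, 9, -21],
   [31, 31, 31, 31, 31, 31, 151, -29, -29, -99, 131, -49, -49, -49, 131, 131, 11, 11, 11, -99],
   [19, 19, 19, -11, -11, -11, -11, 169, -11, 9, -1, -1, -1, 29, 29, 29, 29, 29, 29, 9],
   [19, 19, 19, -11, -11, -11, -11, -11, 169, 9, -1, -1, -1, 29, 29, 29, 29, 29, 29, 9],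
   [49, 49, 49, -11, -11, -11, 19, 19, 19, 9, -31, 149, -31, 29, 29, 29, -1, -1, -1, 9],
   [49, 49, 49, -11, -11, -11, 19, 19, 19, 9, -31, -31, 149, 29, 29, 29, -1, -1, -1, 9],
   [19, 19, 19, 19, 19, 19, 19, 19, 19, 9, -1, -1, -1, 179, -1, -1, -1, -1, -1, 9],
   [91, 91, 91, 31, 31, 31, -29, -29, -29, -99, 71, 71, 71, 131, -49, -49, 11, 11, 11, -99],
   [19, 19, 19, 49, 49, 49, -11, -11, -11, 9, -1, -1, -1, -31, 149, -31, 29, 29, 29, 9],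
   [19, 19, 19, 49, 49, 49, -11, -11, -11, 9, -1, -1, -1, -31, -31, 149, 29, 29, 29, 9],
   [19, 19, 19, 19, 19, 19, 19, 19, 19, 9, -1, -1, -1, -1, -1, -1, 179, -1, -1, 9],
   [19, 19, 19, 19, 19, 19, 19, 19, 19, 9, -1, -1, -1, -1, -1, -1, -1, 179, -1, 9],
   [19, 19, 19, 19, 19, 19, 19, 19, 19, 9, -1, -1, -1, -1, -1, -1, -1, -1, 179, 9],
   [9, 9, 9, 9, 9, 9, 9, 9, 9, 129, 9, 9, 9, 9, 9, 9, 9, 9, 9, 249],
   [9, 9, 9, 9, 9, 9, 9, 9, 9, 249, 9, 9, 9, 9, 9, 9, 9, 9, 9, 129]]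

/-- A graph from a symmetric table with zero diagonal: adjacency means table entry `1`. -/
def mkG (t : List (List ℕ)) (hs : ∀ u v : Fin 20, lk t u v = lk t v u)
    (h0 : ∀ u : Fin 20, lk t u u = 0) : SimpleGraph (Fin 20) where
  Adj u v := lk t u v = 1
  symm := ⟨fun u v h => by rw [hs]; exact h⟩
  loopless := ⟨fun u h => by simp [h0] at h⟩

theorem tG_symm : ∀ u v : Fin 20, lk tG u v = lk tG v u := by decide +kernel
theorem tG_diag : ∀ u : Fin 20, lk tG u u = 0 := by decide +kernel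
theorem tO_symm : ∀ u v : Fin 20, lk tO u v = lk tO v u := by decide +kernel
theorem tO_diag : ∀ u : Fin 20, lk tO u u = 0 := by decide +kernel

theorem tG_lip : ∀ u v w : Fin 20, lk tG v w = 1 → lk tG u w ≤ lk tG u v + 1 := by
  decide +kernel
theorem tO_lip : ∀ u v w : Fin 20, lk tO v w = 1 → lk tO u w ≤ lk tO u v + 1 := by
  decide +kernel
theorem tG_pred : ∀ u v : Fin 20, u ≠ v → ∃ w, lk tG w v = 1 ∧ lk tG u v = lk tG u w + 1 := by
  decide +kernel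
theorem tO_pred : ∀ u v : Fin 20, u ≠ v → ∃ w, lk tO w v = 1 ∧ lk tO u v = lk tO u w + 1 := by
  decide +kernel

/-- A table satisfying the obvious local conditions is the distance function. -/
theorem dist_table (G : SimpleGraph (Fin 20)) (D : Fin 20 → Fin 20 → ℕ)
    (h0 : ∀ u, D u u = 0) (h1 : ∀ u v w, G.Adj v w → D u w ≤ D u v + 1)
    (h2 : ∀ u v, u ≠ v → ∃ w, G.Adj w v ∧ D u v = D u w + 1) :
    G.Connected ∧ ∀ u v, G.dist u v = D u v := by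
  have lower : ∀ (u a b : Fin 20) (p : G.Walk a b), D u b ≤ D u a + p.length := by
    intro u a b p
    induction p with
    | nil => simp
    | cons h p ih =>
      have := h1 u _ _ h
      simp only [SimpleGraph.Walk.length_cons]
      omega
  have upper : ∀ (k : ℕ) (u v : Fin 20), D u v = k → ∃ p : G.Walk u v, p.length = k := by
    intro k
    induction k with
    | zero =>
      intro u v h
      by_cases huv : u = v
      · subst huv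
        exact ⟨SimpleGraph.Walk.nil, rfl⟩
      · obtain ⟨w, _, hw⟩ := h2 u v huv
        omega
    | succ k ih =>
      intro u v h
      have huv : u ≠ v := by
        rintro rfl
        rw [h0] at h
        omega
      obtain ⟨w, hadj, hw⟩ := h2 u v huv
      obtain ⟨p, hp⟩ := ih u w (by omega)
      exact ⟨p.append (SimpleGraph.Walk.cons hadj SimpleGraph.Walk.nil), by
        simp [SimpleGraph.Walk.length_append, hp]⟩
  have hconn : G.Connected := by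
    have : Nonempty (Fin 20) := ⟨0⟩
    exact SimpleGraph.Connected.mk fun u v => by
      obtain ⟨p, _⟩ := upper (D u v) u v rfl
      exact ⟨p⟩
  refine ⟨hconn, fun u v => le_antisymm ?_ ?_⟩
  · obtain ⟨p, hp⟩ := upper (D u v) u v rfl
    calc G.dist u v ≤ p.length := SimpleGraph.dist_le p
      _ = D u v := hp
  · obtain ⟨p, hp⟩ := hconn.exists_walk_length_eq_dist u v
    have := lower u u v p
    rw [h0] at this
    omega

/-- The transmission-regular graph. -/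
def Γ : SimpleGraph (Fin 20) := mkG tG tG_symm tG_diag

/-- The graph that is not transmission-regular. -/
def Ω : SimpleGraph (Fin 20) := mkG tO tO_symm tO_diag

theorem Γ_dist : Γ.Connected ∧ ∀ u v, Γ.dist u v = lk tG u v :=
  dist_table Γ (lk tG) tG_diag tG_lip tG_pred

theorem Ω_dist : Ω.Connected ∧ ∀ u v, Ω.dist u v = lk tO u v :=
  dist_table Ω (lk tO) tO_diag tO_lip tO_pred

/-- Entrywise identities behind the similarity. -/
theorem inter_tab : ∀ i j : Fin 20,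
    (∑ k : Fin 20, ((lk tG i k : ℕ) : ℤ) * lk tP k j) =
      ∑ k : Fin 20, lk tP i k * ((lk tO k j : ℕ) : ℤ) := by
  decide +kernel

theorem inv_tab : ∀ i j : Fin 20,
    (∑ k : Fin 20, lk tP i k * lk tQ k j) = if i = j then 32400 else 0 := by
  decide +kernel

theorem rowG : ∀ i : Fin 20, (∑ k : Fin 20, lk tG i k) = 28 := by decide +kernel

theorem rowO : (∑ k : Fin 20, lk tO 0 k) = 26 := by decide +kernel

/-- The real similarity matrix and its (scaled) inverse. -/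
noncomputable def P : Matrix (Fin 20) (Fin 20) ℝ := Matrix.of fun i j => ((lk tP i j : ℤ) : ℝ)
noncomputable def Q : Matrix (Fin 20) (Fin 20) ℝ := Matrix.of fun i j => ((lk tQ i j : ℤ) : ℝ)

theorem inter : distMatrix Γ * P = P * distMatrix Ω := by
  ext i j
  have h := inter_tab i j
  have h' := congrArg (fun z : ℤ => (z : ℝ)) h
  simp only [Int.cast_sum, Int.cast_mul, Int.cast_natCast] at h'
  simp only [Matrix.mul_apply, distMatrix, P, Matrix.of_apply, Γ_dist.2, Ω_dist.2]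
  exact h'

theorem PQ : P * Q = (32400 : ℝ) • (1 : Matrix (Fin 20) (Fin 20) ℝ) := by
  ext i j
  have h := inv_tab i j
  have h' := congrArg (fun z : ℤ => (z : ℝ)) h
  simp only [Int.cast_sum, Int.cast_mul] at h'
  simp only [Matrix.mul_apply, P, Q, Matrix.of_apply, Matrix.smul_apply, Matrix.one_apply]
  rw [h']
  split_ifs <;> simp

theorem charpoly_eq : (distMatrix Γ).charpoly = (distMatrix Ω).charpoly := by
  have h1 : P * ((1 / 32400 : ℝ) • Q) = 1 := by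
    rw [Matrix.mul_smul, PQ, smul_smul]
    norm_num
  have h2 : ((1 / 32400 : ℝ) • Q) * P = 1 := mul_eq_one_comm.mp h1
  have hP : P⁻¹ = (1 / 32400 : ℝ) • Q := Matrix.inv_eq_right_inv h1
  have h3 : P * distMatrix Ω * P⁻¹ = distMatrix Γ := by
    rw [hP, ← inter, Matrix.mul_assoc, h1, Matrix.mul_one]
  have h4 := Matrix.charpoly_units_conj
    (⟨P, (1 / 32400 : ℝ) • Q, h1, h2⟩ : (Matrix (Fin 20) (Fin 20) ℝ)ˣ) (distMatrix Ω)
  rw [← h3]
  exact h4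

theorem Γ_one : distMatrix Γ *ᵥ (fun _ => 1) = (28 : ℝ) • (fun _ => (1 : ℝ)) := by
  ext i
  have h := congrArg (fun z : ℕ => (z : ℝ)) (rowG i)
  simp only [Nat.cast_sum] at h
  simp only [Matrix.mulVec, dotProduct, distMatrix, Matrix.of_apply, Γ_dist.2, mul_one,
    Pi.smul_apply, smul_eq_mul]
  rw [h]
  norm_num

theorem Ω_one : distMatrix Ω *ᵥ (fun _ => 1) ≠ (28 : ℝ) • (fun _ => (1 : ℝ)) := by
  intro hh
  have h0 := congrFun hh 0
  have h := congrArg (fun z : ℕ => (z : ℝ)) rowO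
  simp only [Nat.cast_sum] at h
  simp only [Matrix.mulVec, dotProduct, distMatrix, Matrix.of_apply, Ω_dist.2, mul_one,
    Pi.smul_apply, smul_eq_mul] at h0
  rw [h] at h0
  norm_num at h0

theorem Γ_greatest : IsGreatest (spectrum ℝ (distMatrix Γ)) 28 := by
  constructor
  · rw [← Matrix.spectrum_toLin']
    apply Module.End.HasEigenvalue.mem_spectrum
    apply Module.End.hasEigenvalue_of_hasEigenvector (x := fun _ => (1 : ℝ))
    refine ⟨?_, ?_⟩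
    · rw [Module.End.mem_eigenspace_iff, Matrix.toLin'_apply]
      exact Γ_one
    · intro h
      have := congrFun h 0
      simp at this
  · intro x hx
    rw [← Matrix.spectrum_toLin', ← Module.End.hasEigenvalue_iff_mem_spectrum] at hx
    obtain ⟨k, hk⟩ := eigenvalue_mem_ball hx
    rw [Metric.mem_closedBall, Real.dist_eq] at hk
    have hkk : distMatrix Γ k k = 0 := by
      simp [distMatrix]
    rw [hkk, sub_zero] at hk
    have hsum : ∑ j ∈ Finset.univ.erase k, ‖distMatrix Γ k j‖ ≤ 28 := by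
      calc ∑ j ∈ Finset.univ.erase k, ‖distMatrix Γ k j‖
          ≤ ∑ j, ‖distMatrix Γ k j‖ :=
            Finset.sum_le_sum_of_subset_of_nonneg (Finset.erase_subset _ _)
              (fun _ _ _ => norm_nonneg _)
        _ = ((∑ j : Fin 20, lk tG k j : ℕ) : ℝ) := by
            rw [Nat.cast_sum]
            refine Finset.sum_congr rfl fun j _ => ?_
            simp [distMatrix, Γ_dist.2]
        _ = 28 := by rw [rowG]; norm_num
    calc x ≤ |x| := le_abs_self x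
      _ ≤ _ := hk
      _ ≤ 28 := hsum

theorem Ω_greatest : IsGreatest (spectrum ℝ (distMatrix Ω)) 28 := by
  have : spectrum ℝ (distMatrix Ω) = spectrum ℝ (distMatrix Γ) := by
    ext x
    rw [Matrix.mem_spectrum_iff_isRoot_charpoly, Matrix.mem_spectrum_iff_isRoot_charpoly,
      charpoly_eq]
  rw [this]
  exact Γ_greatest

/-- **There are two distance cospectral connected graphs, with common largest distance eigenvalue
`δ₀`, such that the all-ones vector is a `δ₀`-eigenvector of the first distance matrix but not of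
the second.** -/
theorem result : ∃ (Γ Ω : SimpleGraph (Fin 20)) (δ₀ : ℝ),
    Γ.Connected ∧ Ω.Connected ∧
    (distMatrix Γ).charpoly = (distMatrix Ω).charpoly ∧
    IsGreatest (spectrum ℝ (distMatrix Γ)) δ₀ ∧
    IsGreatest (spectrum ℝ (distMatrix Ω)) δ₀ ∧
    Matrix.mulVec (distMatrix Γ) (fun _ => 1) = δ₀ • (fun _ => (1 : ℝ)) ∧
    Matrix.mulVec (distMatrix Ω) (fun _ => 1) ≠ δ₀ • (fun _ => (1 : ℝ)) :=
  ⟨Γ, Ω, 28, Γ_dist.1, Ω_dist.1, charpoly_eq, Γ_greatest, Ω_greatest, Γ_one, Ω_one⟩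

end Pool.Agent.Results.MP_e517fb_co.CospectralPair
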